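import Pool.Agent.U798.CH.D

/-!
# MP_4eea03_an: the regular `n`-gon does not minimize the Cheeger functional of the disk in `𝒫_n`

`B` is the open unit disk of the plane and `J B K = h_K(B) |K°|^{1/2}` (definitions of the starting
file `Pool.Agent.Results.MP_302605_an.OptimalAnisotropy`: the anisotropic perimeter of `E` is the
supremum of `∫_E div φ` over the fields `φ ∈ C¹_c` with values in `K`).

* `Poly n K` (`K ∈ 𝒫_n`): `K` is non-empty, open, bounded, convex, centrally symmetric, and it is the
  interior of the convex hull of a set of exactly `n` points, none of which lies in the convex hull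
  of the others;
* `Reg n` (`P*_n`): the regular `n`-gon circumscribed about `B`, the set of the points `x` with
  `x · u < 1` for `u = (cos (2 π k / n), sin (2 π k / n))`, `k` an integer.

(1) For every even `n ≥ 4` there are `n`-gons in `𝒫_n` as close to the square `Reg 4` as one likes:
four corners, and a few further vertices on two opposite sides, which are bent a little. Hence
`inf_{𝒫_n} J_B ≤ J_B[Reg 4]`.

(2) For every even `n ≥ 30` there is `P ∈ 𝒫_n` with `J_B[P] < J_B[Reg n]`. Test set for the square:
the disk without four caps, `{x ∈ B : |x_i| < 9/10}`, with perimeter at most `36/5` and area at least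
`π - 44/175`, so `J_B[Reg 4] ≤ 3.5232`; the field `x ↦ x` has its values in `B ⊆ Reg n` on `B`, so
`h_{Reg n}(B) ≥ 2`, and `J_B[Reg n] ≥ 2 √π cos (π / n) > 3.525`.
-/

set_option autoImplicit false

open MeasureTheory Set
open scoped ENNReal

namespace Pool.Agent.Results.MP_4eea03_an.RegularNotOptimal

open Pool.Agent.Results.MP_302605_an.OptimalAnisotropy
open Pool.Agent.U798.CH

/-- The answer to Q1 is negative: for every even `n ≥ 30` the regular `n`-gon is not optimal. -/
theorem result :
    (∀ n : ℕ, Even n → 4 ≤ n → ∀ η : ℝ, 0 < η →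
      ∃ P : Set (En 2), Poly n P ∧ J B P ≤ ENNReal.ofReal (1 + η) * J B (Reg 4)) ∧
    (∀ n : ℕ, Even n → 30 ≤ n → ∃ P : Set (En 2), Poly n P ∧ J B P < J B (Reg n)) := by
  refine ⟨fun n hn h4 η hη => ?_, fun n hn h => beats hn h⟩
  obtain ⟨k, rfl⟩ := hn.two_dvd
  rw [Reg_four]
  exact near_square (by omega) hη

end Pool.Agent.Results.MP_4eea03_an.RegularNotOptimal
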